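import Pool.Agent.helper75.S6D.Spec

set_option autoImplicit false

open Polynomial Finset

noncomputable section

namespace Pool.Agent.S6D

open Pool.Agent.PSA

theorem CHL_le (l : List (ℤ × ℤ × ℤ)) : ∀ (q : ℤ × ℤ × ℤ), OKc (q :: l) → ∀ x y : ℝ, Ch (q :: l) x y →
    (q.1 : ℝ) ≤ 65537 * x := by
  induction l with
  | nil => intro q _ x y h; exact h.elim
  | cons r l ih =>
    intro q hq x y h
    rcases h with h | h
    · exact h.1
    · have h1 := ih r hq.2.2 x y h
      have h2 : (q.1 : ℝ) < r.1 := by exact_mod_cast hq.1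
      linarith

theorem CHL_head (q : ℤ × ℤ × ℤ) (l : List (ℤ × ℤ × ℤ)) (h : OKc (q :: l)) : q.2.1 ≤ q.2.2 := by
  cases l with
  | nil => exact h
  | cons r l => exact h.2.1

theorem CHL (hTRL : TRL_stmt) : CHL_stmt := by
  intro l
  induction l with
  | nil =>
    intro _
    refine ⟨0, fun A _ => ⟨∅, fun z hz => absurd hz (Finset.notMem_empty z), ?_⟩⟩
    simp [arc]
  | cons p l ih =>
    cases l with
    | nil =>
      intro _
      refine ⟨0, fun A _ => ⟨∅, fun z hz => absurd hz (Finset.notMem_empty z), ?_⟩⟩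
      simp [arc]
    | cons q l =>
      intro h
      obtain ⟨K₁, H1⟩ := hTRL p q h.1 h.2.1 (CHL_head q l h.2.2)
      obtain ⟨K₂, H2⟩ := ih h.2.2
      refine ⟨K₁ + K₂, fun A hA => ?_⟩
      classical
      obtain ⟨F₁, f1, f2⟩ := H1 A hA
      obtain ⟨F₂, g1, g2⟩ := H2 A hA
      refine ⟨F₁ ∪ F₂, ?_, ?_⟩
      · intro z hz
        rcases Finset.mem_union.1 hz with hz | hz
        · exact Or.inl (f1 z hz)
        · exact Or.inr (g1 z hz)
      · have hd : Disjoint F₁ F₂ := by
          rw [Finset.disjoint_left]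
          intro z hz1 hz2
          have h1 := (f1 z hz1).2.1
          have h2 := CHL_le l q h.2.2 _ _ (g1 z hz2)
          linarith
        rw [Finset.card_union_of_disjoint hd]
        have h3 : ((arc (p :: q :: l) : ℤ) : ℝ) = (ar p q : ℝ) + (arc (q :: l) : ℝ) := by
          change (((ar p q + arc (q :: l) : ℤ)) : ℝ) = _
          push_cast
          ring
        rw [h3]
        push_cast
        have h4 : ((ar p q : ℝ) + (arc (q :: l) : ℝ)) / (2 * 65537 ^ 2) * (A : ℝ) ^ 2 - (K₁ + K₂) * A =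
          ((ar p q : ℝ) / (2 * 65537 ^ 2) * (A : ℝ) ^ 2 - K₁ * A) + ((arc (q :: l) : ℝ) / (2 * 65537 ^ 2) * (A : ℝ) ^ 2 - K₂ * A) := by ring
        rw [h4]
        exact add_le_add f2 g2

end Pool.Agent.S6D
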