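import Pool.Agent.helper75.S6D.Spec

set_option autoImplicit false

open Polynomial Finset

noncomputable section

namespace Pool.Agent.S6D

open Pool.Agent.PSA

theorem EXC : EXC_stmt := by
  classical
  intro A hA F hF
  set R : Finset ℤ := Finset.Icc (-1) 1 ∪ Finset.Icc ((A : ℤ) - 3) (A + 3) with hR
  set G : Finset (ℤ × ℤ) := (R ×ˢ Finset.Icc (-(4 * (A : ℤ))) (4 * A)).image
    (fun p => (p.2, p.1 ^ 3 - A * p.1 ^ 2 - p.2 * p.1 + 2 * A)) with hG
  have hsub : F.filter (fun z => ¬ NoInt A z.1 z.2) ⊆ G := by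
    intro z hz
    obtain ⟨hzF, hz⟩ := Finset.mem_filter.1 hz
    obtain ⟨hb, u, v, L, ⟨h1, h2, h3⟩, hu, hv⟩ := hF z hzF
    unfold NoInt at hz
    push Not at hz
    obtain ⟨r, hr⟩ := hz
    rw [abs_lt] at hu hv
    rw [abs_le] at hb
    have hr' : ((r : ℝ) - u) * ((r : ℝ) - v) * ((r : ℝ) - L) = 0 := by
      have h4 : (r : ℝ) ^ 3 - A * (r : ℝ) ^ 2 - z.1 * r - (z.2 - 2 * A) = 0 := by exact_mod_cast hr
      have h5 : (z.2 : ℝ) - 2 * A = u * v * L := by rw [h3]; push_cast; ring
      rw [h5, h2] at h4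
      have h6 : ((A : ℤ) : ℝ) = (A : ℝ) := by push_cast; rfl
      rw [h6] at h1
      rw [h1] at h4
      linarith
    have hrR : r ∈ R := by
      rw [hR, Finset.mem_union, Finset.mem_Icc, Finset.mem_Icc]
      rcases mul_eq_zero.1 hr' with h | h
      · left
        rcases mul_eq_zero.1 h with h | h
        · have h4 : (r : ℝ) = u := by linarith
          have h5 : (-2 : ℝ) < r := by rw [h4]; exact hu.1
          have h6 : (r : ℝ) < 2 := by rw [h4]; exact hu.2
          have h7 : (-2 : ℤ) < r := by exact_mod_cast h5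
          have h8 : r < (2 : ℤ) := by exact_mod_cast h6
          omega
        · have h4 : (r : ℝ) = v := by linarith
          have h5 : (-2 : ℝ) < r := by rw [h4]; exact hv.1
          have h6 : (r : ℝ) < 2 := by rw [h4]; exact hv.2
          have h7 : (-2 : ℤ) < r := by exact_mod_cast h5
          have h8 : r < (2 : ℤ) := by exact_mod_cast h6
          omega
      · right
        have h4 : (r : ℝ) = A - u - v := by
          push_cast at h1
          linarith
        have h5 : (A : ℝ) - 4 < r := by rw [h4]; linarith [hu.2, hv.2]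
        have h6 : (r : ℝ) < A + 4 := by rw [h4]; linarith [hu.1, hv.1]
        have h7 : (A : ℤ) - 4 < r := by exact_mod_cast h5
        have h8 : r < (A : ℤ) + 4 := by exact_mod_cast h6
        omega
    rw [hG, Finset.mem_image]
    refine ⟨(r, z.1), Finset.mem_product.2 ⟨hrR, Finset.mem_Icc.2 ⟨hb.1, hb.2⟩⟩, ?_⟩
    refine Prod.ext rfl ?_
    change r ^ 3 - A * r ^ 2 - z.1 * r + 2 * A = z.2
    linarith
  have hcard : (F.filter (fun z => ¬ NoInt A z.1 z.2)).card ≤ 10 * (8 * A + 1) := by
    refine (Finset.card_le_card hsub).trans (Finset.card_image_le.trans ?_)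
    rw [Finset.card_product]
    have h1 : R.card ≤ 10 := by
      refine (Finset.card_union_le _ _).trans ?_
      rw [Int.card_Icc, Int.card_Icc]
      omega
    have h2 : (Finset.Icc (-(4 * (A : ℤ))) (4 * A)).card = 8 * A + 1 := by
      rw [Int.card_Icc]
      omega
    rw [h2]
    exact Nat.mul_le_mul_right _ h1
  have hA' : (1 : ℝ) ≤ A := by exact_mod_cast hA
  have h3 : ((F.filter (fun z => ¬ NoInt A z.1 z.2)).card : ℝ) ≤ 10 * (8 * A + 1) := by exact_mod_cast hcard
  have h4 : (10 : ℝ) * (8 * A + 1) ≤ 108 * A := by linarith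
  refine le_trans (le_of_eq ?_) (h3.trans h4)
  congr 2

end Pool.Agent.S6D
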