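import Pool.Agent.helper75.S6D.Spec

/-!
# Project s6, row EXT (helper5)
-/

set_option autoImplicit false

open Polynomial Finset

noncomputable section

namespace Pool.Agent.S6D

open Pool.Agent.PSA

theorem EXT_poly (β γ u v : ℝ) (h : β * γ = 1) :
    (X - C β) * (X - C γ) * ((X ^ 2 - C u * X + 1) * (X ^ 2 - C v * X + 1)) =
      X ^ 6 - C (u + v + (β + γ)) * X ^ 5 + C (3 + (u * v + (β + γ) * (u + v))) * X ^ 4
        - C (u * v * (β + γ) + 2 * (u + v + (β + γ))) * X ^ 3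
        + C (3 + (u * v + (β + γ) * (u + v))) * X ^ 2 - C (u + v + (β + γ)) * X + 1 := by
  have h1 : (C β : ℝ[X]) * C γ = 1 := by rw [← C_mul, h, C_1]
  have h3 : (C (3 : ℝ) : ℝ[X]) = 3 := rfl
  have h2 : (C (2 : ℝ) : ℝ[X]) = 2 := rfl
  simp only [C_add, C_mul, h3, h2]
  linear_combination ((X ^ 2 - C u * X + 1) * (X ^ 2 - C v * X + 1)) * h1

theorem EXT_coeff (p q r : ℝ) (n : ℕ) :
    (X ^ 6 - C p * X ^ 5 + C q * X ^ 4 - C r * X ^ 3 + C q * X ^ 2 - C p * X + 1 : ℝ[X]).coeff n =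
      (if n = 6 then 1 else 0) - (if n = 5 then p else 0) + (if n = 4 then q else 0) - (if n = 3 then r else 0)
        + (if n = 2 then q else 0) - (if n = 1 then p else 0) + (if n = 0 then 1 else 0) := by
  simp only [coeff_add, coeff_sub, coeff_C_mul, coeff_X_pow, coeff_one, coeff_X, mul_ite, mul_one, mul_zero]
  simp only [eq_comm (a := (1 : ℕ)) (b := n)]

theorem EXT (hP6C : P6C_stmt) : EXT_stmt := by
  intro β hβ hdeg
  obtain ⟨k, hk, hk2, w, hF⟩ := ALL_REC β hβ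
  obtain rfl : k = 2 := by omega
  have hβ0 : β ≠ 0 := by
    have h2 : 0 < β := by
      have h1 : 1 < β := hβ.2.1
      linarith
    exact h2.ne'
  have hF' : (minpoly ℤ β).map (Int.castRingHom ℝ) = _ := hF
  have hQ : QQ w = (X ^ 2 - C (2 * (w 0 : ℂ).re) * X + 1) * (X ^ 2 - C (2 * (w 1 : ℂ).re) * X + 1) := by
    unfold QQ
    rw [Fin.prod_univ_two]
  rw [hQ, EXT_poly β β⁻¹ _ _ (mul_inv_cancel₀ hβ0)] at hF'
  set u : ℝ := 2 * (w 0 : ℂ).re with hu
  set v : ℝ := 2 * (w 1 : ℂ).re with hv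
  have hc : ∀ n : ℕ, (((minpoly ℤ β).coeff n : ℤ) : ℝ) = _ := fun n => by
    have h := congrArg (fun P : ℝ[X] => P.coeff n) hF'
    simp only [coeff_map, eq_intCast] at h
    exact h
  simp only [EXT_coeff] at hc
  have h5 := hc 5
  have h4 := hc 4
  have h3 := hc 3
  norm_num at h5 h4 h3
  have hre : ∀ j : Fin 2, |2 * (w j : ℂ).re| ≤ 2 := fun j => by
    have h1 : |(w j : ℂ).re| ≤ ‖(w j : ℂ)‖ := Complex.abs_re_le_norm _
    rw [Circle.norm_coe] at h1
    rw [abs_mul, abs_two]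
    linarith
  refine ⟨-(minpoly ℤ β).coeff 5, 3 - (minpoly ℤ β).coeff 4, -(minpoly ℤ β).coeff 3, u, v, hre 0, hre 1, ⟨?_, ?_, ?_⟩, ?_⟩
  · push_cast
    rw [h5]
    ring
  · push_cast
    rw [h4]
    ring
  · push_cast
    rw [h3, h5]
    ring
  · apply Polynomial.map_injective (Int.castRingHom ℝ) Int.cast_injective
    rw [hF']
    unfold P6
    simp only [Polynomial.map_add, Polynomial.map_sub, Polynomial.map_mul, Polynomial.map_pow, Polynomial.map_X, Polynomial.map_C,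
      Polynomial.map_one]
    simp only [eq_intCast]
    push_cast
    rw [h5, h4, h3]
    ring_nf

end Pool.Agent.S6D
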