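import Pool.Agent.helper75.S6D.Spec

set_option autoImplicit false

open Polynomial Finset

noncomputable section

namespace Pool.Agent.S6D

open Pool.Agent.PSA

theorem SUL_aux (α K : ℝ) (A₀ : ℕ) (hα : 0 ≤ α) (M : ℕ) :
    α / 3 * (M : ℝ) ^ 3 - |K| * ((M : ℝ) * (M + 1) / 2) - α * (A₀ : ℝ) ^ 3 ≤
      ∑ A ∈ Finset.Icc A₀ M, (α * (A : ℝ) ^ 2 - K * A) := by
  induction M with
  | zero =>
    rcases Nat.eq_zero_or_pos A₀ with h | h
    · subst h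
      simp
    · rw [Finset.Icc_eq_empty (by omega), Finset.sum_empty]
      have h1 : 0 ≤ α * (A₀ : ℝ) ^ 3 := by positivity
      push_cast
      nlinarith
  | succ M ih =>
    by_cases h : A₀ ≤ M + 1
    · rw [Finset.sum_Icc_succ_top h]
      have h1 : K ≤ |K| := le_abs_self K
      have h2 : K * ((M : ℝ) + 1) ≤ |K| * ((M : ℝ) + 1) := mul_le_mul_of_nonneg_right h1 (by positivity)
      have h3 : 0 ≤ α * ((M : ℝ) + 2 / 3) := by positivity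
      push_cast
      nlinarith
    · rw [Finset.Icc_eq_empty h, Finset.sum_empty]
      have h1 : ((M + 1 : ℕ) : ℝ) ^ 3 ≤ (A₀ : ℝ) ^ 3 := by
        have h2 : ((M + 1 : ℕ) : ℝ) ≤ A₀ := by exact_mod_cast (not_le.1 h).le
        exact pow_le_pow_left₀ (by positivity) h2 3
      have h2 : 0 ≤ |K| * (((M + 1 : ℕ) : ℝ) * (((M + 1 : ℕ) : ℝ) + 1) / 2) := by positivity
      have h3 : 0 ≤ α * ((M + 1 : ℕ) : ℝ) ^ 3 := by positivity
      have h4 : α * ((M + 1 : ℕ) : ℝ) ^ 3 ≤ α * (A₀ : ℝ) ^ 3 := mul_le_mul_of_nonneg_left h1 hα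
      linarith

theorem SUL : SUL_stmt := by
  intro α K A₀ hα
  refine ⟨|K| + α * (A₀ : ℝ) ^ 3, fun M hM => ?_⟩
  have h := SUL_aux α K A₀ hα M
  have hM' : (1 : ℝ) ≤ M := by exact_mod_cast hM
  have h1 : (M : ℝ) * (M + 1) / 2 ≤ (M : ℝ) ^ 2 := by nlinarith
  have h2 : |K| * ((M : ℝ) * (M + 1) / 2) ≤ |K| * (M : ℝ) ^ 2 := mul_le_mul_of_nonneg_left h1 (abs_nonneg K)
  have h3 : α * (A₀ : ℝ) ^ 3 ≤ α * (A₀ : ℝ) ^ 3 * (M : ℝ) ^ 2 := by
    have h4 : 0 ≤ α * (A₀ : ℝ) ^ 3 := by positivity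
    nlinarith [one_le_pow₀ hM' (n := 2)]
  nlinarith

end Pool.Agent.S6D
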